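import Pool.Agent.EVF.StmtsG

namespace Pool.Agent.EVF.H41

open MvPolynomial MeasureTheory Matrix

theorem val_comb {r n : ℕ} (bas : Fin n → Vec r) (v : Fin n → ℂ) (i : Fin r) (x y : ℂ) :
    Helper90Frey.val (comb bas v i) x y =
      ∑ k, star (v k) * Helper90Frey.val (cpx (bas k i)) x y := by
  unfold Helper90Frey.val comb
  rw [map_sum]
  refine Finset.sum_congr rfl fun k _ => ?_
  rw [map_mul, MvPolynomial.eval_C]

theorem qfi (hKer : KerStmt) (hHsm : HsmStmt) : QfiStmt := by
  intro r s N hs hN hr n bas hbas v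
  obtain ⟨hI, -⟩ := hHsm r s N hs hN hr
  have hI' : ∀ k l, Integrable (fun x => star (v k) * kernel N (bas k) (bas l) x * v l) :=
    fun k l => ((hI _ (hbas k) _ (hbas l)).const_mul (star (v k))).mul_const (v l)
  have hI2 : ∀ k, Integrable (fun x => ∑ l, star (v k) * kernel N (bas k) (bas l) x * v l) :=
    fun k => integrable_finsetSum _ fun l _ => hI' k l
  have hS : Integrable (fun x => ∑ k, ∑ l, star (v k) * kernel N (bas k) (bas l) x * v l) :=
    integrable_finsetSum _ fun k _ => hI2 k
  refine ⟨hS.re, ?_, ?_⟩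
  · have h1 : ∫ x, qf N bas v x =
        (∫ x, ∑ k, ∑ l, star (v k) * kernel N (bas k) (bas l) x * v l).re := integral_re hS
    rw [h1, integral_finsetSum _ fun k _ => hI2 k]
    congr 1
    unfold dotProduct mulVec dotProduct
    refine Finset.sum_congr rfl fun k _ => ?_
    rw [integral_finsetSum _ fun l _ => hI' k l, Finset.mul_sum]
    refine Finset.sum_congr rfl fun l _ => ?_
    rw [integral_mul_const, integral_const_mul]
    show _ = star (v k) * ((∫ x, kernel N (bas k) (bas l) x) * v l)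
    rw [mul_assoc]
  · intro x hx
    obtain ⟨W, hW, hk⟩ := hKer r s N hs hN x hx
    refine ⟨W, fun y hy i j => (hW y hy).2 i j, ?_⟩
    obtain ⟨a, ha⟩ : ∃ a : Fin n → ℂ → ℂ,
        ∀ k y, a k y = ∑ i, Helper90Frey.val (cpx (bas k i)) x y * W y i := ⟨_, fun _ _ => rfl⟩
    obtain ⟨S, hSd⟩ : ∃ S : ℂ → ℂ, ∀ y, S y = ∑ k, star (v k) * a k y := ⟨_, fun _ => rfl⟩
    obtain ⟨D, hD⟩ : ∃ D : ℂ → ℝ,
      ∀ y, D y = ‖Helper90Frey.val (pderiv 1 (cmat N).det) x y‖ ^ 2 := ⟨_, fun _ => rfl⟩
    have h2 : ∀ y, ∑ j, Helper90Frey.val (comb bas v j) x y * W y j = S y := by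
      intro y
      rw [hSd]
      simp only [val_comb, Finset.sum_mul, ha, Finset.mul_sum]
      rw [Finset.sum_comm]
      refine Finset.sum_congr rfl fun k _ => Finset.sum_congr rfl fun i _ => ?_
      rw [mul_assoc]
    have h3 : ∀ k l, kernel N (bas k) (bas l) x =
        ∑ y ∈ Helper90Frey.rts (cmat N).det x, a k y * star (a l y) / ((D y : ℝ) : ℂ) := by
      intro k l
      rw [hk]
      refine Finset.sum_congr rfl fun y _ => ?_
      rw [ha, ha, hD]
    have h4 : ∑ k, ∑ l, star (v k) * kernel N (bas k) (bas l) x * v l =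
        ∑ y ∈ Helper90Frey.rts (cmat N).det x, S y * star (S y) / ((D y : ℝ) : ℂ) := by
      have h5 : ∀ y, S y * star (S y) / ((D y : ℝ) : ℂ) =
          ∑ k, ∑ l, star (v k) * (a k y * star (a l y) / ((D y : ℝ) : ℂ)) * v l := by
        intro y
        have h6 : star (S y) = ∑ l, v l * star (a l y) := by
          rw [hSd, star_sum]
          refine Finset.sum_congr rfl fun l _ => ?_
          rw [star_mul, star_star, mul_comm]
        rw [h6, hSd, Finset.sum_mul_sum, Finset.sum_div]
        refine Finset.sum_congr rfl fun k _ => ?_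
        rw [Finset.sum_div]
        refine Finset.sum_congr rfl fun l _ => ?_
        ring
      simp only [h5]
      symm
      rw [Finset.sum_comm]
      refine Finset.sum_congr rfl fun k _ => ?_
      rw [Finset.sum_comm]
      refine Finset.sum_congr rfl fun l _ => ?_
      rw [h3, Finset.mul_sum, Finset.sum_mul]
    unfold qf
    rw [h4, Complex.re_sum]
    refine Finset.sum_congr rfl fun y _ => ?_
    rw [h2, ← hD]
    have h7 : S y * star (S y) = ((‖S y‖ ^ 2 : ℝ) : ℂ) := by
      rw [Complex.star_def, Complex.mul_conj, Complex.normSq_eq_norm_sq]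
    rw [h7, ← Complex.ofReal_div, Complex.ofReal_re]

end Pool.Agent.EVF.H41
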