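import Pool.Agent.EVF.StmtsG

namespace Pool.Agent.EVF.H41

open MvPolynomial MeasureTheory Matrix

/-- the weight of a monomial -/
noncomputable def wt (α β : ℕ) (b : ℝ) (e : Fin 2 →₀ ℕ) : ℝ := b ^ (α * e 0 + β * e 1)

theorem wt_add (α β : ℕ) (b : ℝ) (e f : Fin 2 →₀ ℕ) :
    wt α β b (e + f) = wt α β b e * wt α β b f := by
  unfold wt
  rw [← pow_add, Finsupp.add_apply, Finsupp.add_apply]
  congr 1
  ring

theorem wsz_eq (α β : ℕ) (b : ℝ) (G : MvPolynomial (Fin 2) ℂ) (S : Finset (Fin 2 →₀ ℕ))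
    (h : G.support ⊆ S) : wsz α β b G = ∑ e ∈ S, ‖coeff e G‖ * wt α β b e := by
  unfold wsz
  refine Finset.sum_subset h fun e _ he => ?_
  rw [notMem_support_iff.1 he, norm_zero, zero_mul]

theorem wt_nonneg {α β : ℕ} {b : ℝ} (hb : 0 ≤ b) (e : Fin 2 →₀ ℕ) : 0 ≤ wt α β b e :=
  pow_nonneg hb _

theorem wsz_nonneg {α β : ℕ} {b : ℝ} (hb : 0 ≤ b) (G : MvPolynomial (Fin 2) ℂ) :
    0 ≤ wsz α β b G :=
  Finset.sum_nonneg fun e _ => mul_nonneg (norm_nonneg _) (wt_nonneg hb e)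

theorem wsz_add {α β : ℕ} {b : ℝ} (hb : 0 ≤ b) (G H : MvPolynomial (Fin 2) ℂ) :
    wsz α β b (G + H) ≤ wsz α β b G + wsz α β b H := by
  classical
  rw [wsz_eq α β b (G + H) (G.support ∪ H.support) (support_add),
    wsz_eq α β b G (G.support ∪ H.support) Finset.subset_union_left,
    wsz_eq α β b H (G.support ∪ H.support) Finset.subset_union_right, ← Finset.sum_add_distrib]
  refine Finset.sum_le_sum fun e _ => ?_
  rw [← add_mul, coeff_add]
  exact mul_le_mul_of_nonneg_right (norm_add_le _ _) (wt_nonneg hb e)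

theorem wsz_zero (α β : ℕ) (b : ℝ) : wsz α β b 0 = 0 := by
  unfold wsz
  rw [support_zero, Finset.sum_empty]

theorem wsz_sum {α β : ℕ} {b : ℝ} (hb : 0 ≤ b) {ι : Type} (S : Finset ι)
    (f : ι → MvPolynomial (Fin 2) ℂ) : wsz α β b (∑ i ∈ S, f i) ≤ ∑ i ∈ S, wsz α β b (f i) :=
  Finset.le_sum_of_subadditive (wsz α β b) (wsz_zero α β b).le (wsz_add hb) S f

theorem wsz_monomial (α β : ℕ) (b : ℝ) (e : Fin 2 →₀ ℕ) (c : ℂ) :
    wsz α β b (monomial e c) = ‖c‖ * wt α β b e := by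
  rw [wsz_eq α β b (monomial e c) {e} support_monomial_subset, Finset.sum_singleton, coeff_monomial,
    if_pos rfl]

theorem wsz_mul {α β : ℕ} {b : ℝ} (hb : 0 ≤ b) (G H : MvPolynomial (Fin 2) ℂ) :
    wsz α β b (G * H) ≤ wsz α β b G * wsz α β b H := by
  have h1 : G * H = ∑ e ∈ G.support, ∑ f ∈ H.support,
      monomial (e + f) (coeff e G * coeff f H) := by
    conv_lhs => rw [← support_sum_monomial_coeff G, ← support_sum_monomial_coeff H]
    rw [Finset.sum_mul_sum]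
    refine Finset.sum_congr rfl fun e _ => Finset.sum_congr rfl fun f _ => ?_
    rw [monomial_mul]
  rw [h1]
  refine (wsz_sum hb _ _).trans ?_
  refine (Finset.sum_le_sum fun e _ => wsz_sum hb _ _).trans ?_
  unfold wsz
  rw [Finset.sum_mul_sum]
  refine Finset.sum_le_sum fun e _ => Finset.sum_le_sum fun f _ => ?_
  have h2 := wsz_monomial α β b (e + f) (coeff e G * coeff f H)
  unfold wsz at h2
  rw [h2, norm_mul, wt_add]
  unfold wt
  apply le_of_eq
  ring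

theorem wsz_slice {α β : ℕ} {b : ℝ} (hb : 0 ≤ b) (G : MvPolynomial (Fin 2) ℂ) (x : ℂ) (k : ℕ)
    (hx : ‖x‖ ≤ b ^ α) : ‖(Helper90Frey.slice G x).coeff k‖ * b ^ (β * k) ≤ wsz α β b G := by
  have h1 : (Helper90Frey.slice G x).coeff k =
      ∑ e ∈ G.support, if e 1 = k then coeff e G * x ^ e 0 else 0 := by
    unfold Helper90Frey.slice
    rw [MvPolynomial.aeval_def, MvPolynomial.eval₂_eq', Polynomial.finsetSum_coeff]
    refine Finset.sum_congr rfl fun e _ => ?_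
    rw [Fin.prod_univ_two]
    simp only [Matrix.cons_val_zero, Matrix.cons_val_one]
    rw [← Polynomial.C_pow]
    have h2 : (algebraMap ℂ (Polynomial ℂ)) (coeff e G) = Polynomial.C (coeff e G) := rfl
    rw [h2, Polynomial.coeff_C_mul, Polynomial.coeff_C_mul, Polynomial.coeff_X_pow]
    split_ifs with h3 h4 h4
    · rw [mul_one]
    · exact absurd h3.symm h4
    · exact absurd h4.symm h3
    · rw [mul_zero, mul_zero]
  rw [h1]
  have h2 : ‖∑ e ∈ G.support, if e 1 = k then coeff e G * x ^ e 0 else 0‖ * b ^ (β * k) ≤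
      ∑ e ∈ G.support, ‖if e 1 = k then coeff e G * x ^ e 0 else 0‖ * b ^ (β * k) := by
    rw [← Finset.sum_mul]
    exact mul_le_mul_of_nonneg_right (norm_sum_le _ _) (pow_nonneg hb _)
  refine h2.trans ?_
  unfold wsz
  refine Finset.sum_le_sum fun e _ => ?_
  split_ifs with h3
  · rw [norm_mul, norm_pow, h3, pow_add, pow_mul b α (e 0), mul_assoc]
    have h4 : ‖x‖ ^ e 0 ≤ (b ^ α) ^ e 0 := pow_le_pow_left₀ (norm_nonneg _) hx _
    exact mul_le_mul_of_nonneg_left (mul_le_mul_of_nonneg_right h4 (pow_nonneg hb _))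
      (norm_nonneg _)
  · rw [norm_zero, zero_mul]
    exact mul_nonneg (norm_nonneg _) (pow_nonneg hb _)

theorem wsz_val {α β : ℕ} {b : ℝ} (hb : 0 ≤ b) (G : MvPolynomial (Fin 2) ℂ) (x y : ℂ) (T : ℝ)
    (d : ℕ) (hT : 1 ≤ T) (hx : ‖x‖ ≤ b ^ α) (hy : ‖y‖ ≤ T * b ^ β)
    (hd : ∀ e ∈ G.support, e 1 ≤ d) : ‖Helper90Frey.val G x y‖ ≤ T ^ d * wsz α β b G := by
  unfold Helper90Frey.val wsz
  rw [MvPolynomial.eval_eq', Finset.mul_sum]
  refine (norm_sum_le _ _).trans (Finset.sum_le_sum fun e he => ?_)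
  rw [Fin.prod_univ_two, norm_mul, norm_mul, norm_pow, norm_pow]
  simp only [Matrix.cons_val_zero, Matrix.cons_val_one]
  have h1 : ‖x‖ ^ e 0 ≤ (b ^ α) ^ e 0 := pow_le_pow_left₀ (norm_nonneg _) hx _
  have h2 : ‖y‖ ^ e 1 ≤ (T * b ^ β) ^ e 1 := pow_le_pow_left₀ (norm_nonneg _) hy _
  have h3 : T ^ e 1 ≤ T ^ d := pow_le_pow_right₀ hT (hd e he)
  have h4 : (b ^ α) ^ e 0 * (T * b ^ β) ^ e 1 ≤ T ^ d * b ^ (α * e 0 + β * e 1) := by
    rw [mul_pow, pow_add, pow_mul, pow_mul]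
    have h5 : (b ^ α) ^ e 0 * (T ^ e 1 * (b ^ β) ^ e 1) =
        T ^ e 1 * ((b ^ α) ^ e 0 * (b ^ β) ^ e 1) := by ring
    rw [h5]
    exact mul_le_mul_of_nonneg_right h3 (by positivity)
  calc ‖coeff e G‖ * (‖x‖ ^ e 0 * ‖y‖ ^ e 1)
      ≤ ‖coeff e G‖ * ((b ^ α) ^ e 0 * (T * b ^ β) ^ e 1) :=
        mul_le_mul_of_nonneg_left (mul_le_mul h1 h2 (by positivity) (by positivity))
          (norm_nonneg _)
    _ ≤ ‖coeff e G‖ * (T ^ d * b ^ (α * e 0 + β * e 1)) :=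
        mul_le_mul_of_nonneg_left h4 (norm_nonneg _)
    _ = _ := by ring

theorem wsz_ : WszStmt := by
  intro α β b hb
  refine ⟨wsz_add hb, wsz_mul hb, ?_, wsz_zero α β b, ?_, wsz_slice hb, wsz_val hb⟩
  · intro G
    unfold wsz
    rw [support_neg]
    exact Finset.sum_congr rfl fun e _ => by rw [coeff_neg, norm_neg]
  · have h := wsz_monomial α β b 0 1
    rw [show (monomial 0 (1 : ℂ) : MvPolynomial (Fin 2) ℂ) = 1 from rfl] at h
    rw [h, norm_one, one_mul]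
    unfold wt
    simp

end Pool.Agent.EVF.H41
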